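import Mathlib

/-!
# MP_26672a: the two-level symbol-count families need not have minimal deletion shadow

For `r = 3`, `n = 4` and `(s, k, l) = (3, 0, 1)` the family `F_{s,k,l}` has `32` words and a deletion
shadow of size `17`, while some family of `32` words has a deletion shadow of size `16`.
-/

set_option autoImplicit false

namespace Pool.Agent.Results.MP_26672a_co.TwoLevelFails

/-- The set `[r]^n` of words of length `n` over the alphabet `[r] = {1, ..., r}`. -/
def words (r n : ℕ) : Set (List ℕ) := {w | w.length = n ∧ ∀ x ∈ w, 1 ≤ x ∧ x ≤ r}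

/-- The deletion shadow: all words obtained from a word of the family by deleting one letter. -/
def shadow (F : Set (List ℕ)) : Set (List ℕ) := {u | ∃ w ∈ F, ∃ i < w.length, u = w.eraseIdx i}

/-- `F ⊆ [r]^n` has minimal deletion shadow given its size. -/
def HasMinimalShadow (r n : ℕ) (F : Set (List ℕ)) : Prop :=
  ∀ G ⊆ words r n, G.ncard = F.ncard → (shadow F).ncard ≤ (shadow G).ncard

/-- The family `F_{s,k,l}` of words of length `n`. -/
def family (n s k l : ℕ) : Set (List ℕ) :=
  {w | w ∈ words s n ∧ w.count s ≤ k} ∪
    {w | w ∈ words s n ∧ w.count s = k + 1 ∧ w.count (s - 1) ≤ l}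

/-- All words of length `n` over `[r]`, as a list. -/
def allWords (r : ℕ) : ℕ → List (List ℕ)
  | 0 => [[]]
  | n + 1 => (allWords r n).flatMap fun w => (List.range r).map fun x => (x + 1) :: w

theorem mem_allWords (r n : ℕ) (w : List ℕ) : w ∈ allWords r n ↔ w ∈ words r n := by
  induction n generalizing w with
  | zero =>
    simp only [allWords, List.mem_singleton, words, Set.mem_ofPred_eq]
    constructor
    · rintro rfl; simp
    · rintro ⟨h, -⟩; exact List.length_eq_zero_iff.1 h
  | succ n ih =>
    simp only [allWords, List.mem_flatMap, List.mem_map, List.mem_range]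
    constructor
    · rintro ⟨v, hv, x, hx, rfl⟩
      have h := (ih v).1 hv
      refine ⟨by simp [h.1], ?_⟩
      intro y hy
      rcases List.mem_cons.1 hy with rfl | hy
      · omega
      · exact h.2 y hy
    · rintro ⟨h1, h2⟩
      cases w with
      | nil => simp at h1
      | cons y v =>
        refine ⟨v, (ih v).2 ⟨by simpa using h1, fun x hx => h2 x (List.mem_cons_of_mem _ hx)⟩,
          y - 1, ?_, ?_⟩
        · have := h2 y (by simp); omega
        · have := h2 y (by simp)
          rw [show y - 1 + 1 = y by omega]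

/-- The deletion shadow of a finite family, computed. -/
def shadowF (F : Finset (List ℕ)) : Finset (List ℕ) :=
  F.biUnion fun w => (Finset.range w.length).image fun i => w.eraseIdx i

theorem shadow_coe (F : Finset (List ℕ)) : shadow (F : Set (List ℕ)) = (shadowF F : Set _) := by
  ext u
  simp only [shadow, shadowF, Set.mem_ofPred_eq, Finset.coe_biUnion, Finset.coe_image, Set.mem_iUnion,
    Set.mem_image, Finset.mem_coe, Finset.mem_range, exists_prop]
  constructor
  · rintro ⟨w, hw, i, hi, rfl⟩; exact ⟨w, hw, i, hi, rfl⟩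
  · rintro ⟨w, hw, i, hi, rfl⟩; exact ⟨w, hw, i, hi, rfl⟩

/-- The family `F_{3,0,1}` for `n = 4`, computed. -/
def fam : Finset (List ℕ) :=
  ((allWords 3 4).filter fun w =>
    w.count 3 ≤ 0 ∨ (w.count 3 = 1 ∧ w.count 2 ≤ 1)).toFinset

theorem family_eq : family 4 3 0 1 = (fam : Set (List ℕ)) := by
  ext w
  simp only [family, fam, Set.mem_union, Set.mem_ofPred_eq, List.coe_toFinset, List.mem_filter,
    mem_allWords, decide_eq_true_eq]
  constructor
  · rintro (⟨h1, h2⟩ | ⟨h1, h2, h3⟩)
    · exact ⟨h1, Or.inl h2⟩
    · exact ⟨h1, Or.inr ⟨h2, h3⟩⟩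
  · rintro ⟨h1, h2 | ⟨h2, h3⟩⟩
    · exact Or.inl ⟨h1, h2⟩
    · exact Or.inr ⟨h1, h2, h3⟩

/-- The better family: the words over `{1,2}`, followed by letters `3`, and the word `3111`. -/
def better : Finset (List ℕ) :=
  ((allWords 3 4).filter fun w =>
    w = [3, 1, 1, 1] ∨ w = [w.getD 0 0, w.getD 1 0, w.getD 2 0, w.getD 3 0] ∧
      (w.getD 0 0 = 3 → w.getD 1 0 = 3) ∧ (w.getD 1 0 = 3 → w.getD 2 0 = 3) ∧
      (w.getD 2 0 = 3 → w.getD 3 0 = 3)).toFinset

theorem card_family : (family 4 3 0 1).ncard = 32 := by
  rw [family_eq, Set.ncard_coe_finset]; decide +kernel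

theorem card_shadow_family : (shadow (family 4 3 0 1)).ncard = 17 := by
  rw [family_eq, shadow_coe, Set.ncard_coe_finset]; decide +kernel

theorem card_better : ((better : Set (List ℕ))).ncard = 32 := by
  rw [Set.ncard_coe_finset]; decide +kernel

theorem card_shadow_better : (shadow (better : Set (List ℕ))).ncard = 16 := by
  rw [shadow_coe, Set.ncard_coe_finset]; decide +kernel

/-- The answer to Q1 is negative: it is not true that for all `r, n ≥ 2` and all admissible
`s, k, l` the family `F_{s,k,l}` has minimal deletion shadow given its size. (It fails for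
`r = 3`, `n = 4`, `(s, k, l) = (3, 0, 1)`: this family has `32` words and a shadow of size `17`, and
there is a family of `32` words of `[3]^4` with a shadow of size `16`.) -/
theorem result :
    ¬ ∀ r n s k l : ℕ, 2 ≤ r → 2 ≤ n → 2 ≤ s → s ≤ r → k ≤ n - 1 → l ≤ n - k - 1 →
      HasMinimalShadow r n (family n s k l) := by
  have h5 : (better : Set (List ℕ)) ⊆ words 3 4 := by
    intro w hw
    have : w ∈ allWords 3 4 := by
      have hw' : w ∈ better := hw
      simp only [better, List.mem_toFinset, List.mem_filter] at hw'
      exact hw'.1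
    exact (mem_allWords 3 4 w).1 this
  intro h
  have := h 3 4 3 0 1 (by norm_num) (by norm_num) (by norm_num) (by norm_num) (by norm_num)
    (by norm_num) _ h5 (by rw [card_family, card_better])
  rw [card_shadow_family, card_shadow_better] at this
  omega

end Pool.Agent.Results.MP_26672a_co.TwoLevelFails
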